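import Mathlib

open Cardinal Filter Topology

namespace Pool.Agent.Lib.MP_d37bef_lc

/-- The series with terms `u` converges. -/
def SeriesConverges (u : ℕ → ℝ) : Prop :=
  ∃ L : ℝ, Tendsto (fun n => ∑ i ∈ Finset.range n, u i) atTop (𝓝 L)

/-- The series with terms `u` converges conditionally. -/
def CondConverges (u : ℕ → ℝ) : Prop :=
  SeriesConverges u ∧ ¬ SeriesConverges fun i => |u i|

/-- The terms of the subseries of `a` along the increasing enumeration of `X`. -/
noncomputable def subterms (a : ℕ → ℚ) (X : Set ℕ) : ℕ → ℝ :=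
  fun k => (a (Nat.nth (fun i => i ∈ X) k) : ℝ)

/-- The family `𝒳` consists of infinite coinfinite sets and picks, for every conditionally
convergent series of rationals, a conditionally convergent subseries. -/
def IsCCFamily (𝒳 : Set (Set ℕ)) : Prop :=
  (∀ X ∈ 𝒳, X.Infinite ∧ Xᶜ.Infinite) ∧
  ∀ a : ℕ → ℚ, CondConverges (fun i => (a i : ℝ)) → ∃ X ∈ 𝒳, CondConverges (subterms a X)

/-- The subseries number `𝔰𝔰_cc`. -/
noncomputable def ssCC : Cardinal.{0} :=
  sInf {κ | ∃ 𝒳 : Set (Set ℕ), #𝒳 = κ ∧ IsCCFamily 𝒳}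

/-- The family `𝒳` consists of infinite coinfinite sets and picks, for every conditionally
convergent series of rationals, a convergent subseries. -/
def IsCFamily (𝒳 : Set (Set ℕ)) : Prop :=
  (∀ X ∈ 𝒳, X.Infinite ∧ Xᶜ.Infinite) ∧
  ∀ a : ℕ → ℚ, CondConverges (fun i => (a i : ℝ)) → ∃ X ∈ 𝒳, SeriesConverges (subterms a X)

/-- The subseries number `𝔰𝔰_c`. -/
noncomputable def ssC : Cardinal.{0} :=
  sInf {κ | ∃ 𝒳 : Set (Set ℕ), #𝒳 = κ ∧ IsCFamily 𝒳}

/-! ### Subseries and indicators -/

lemma sum_indicator_eq (u : ℕ → ℝ) (X : Set ℕ) [DecidablePred (· ∈ X)] (m : ℕ) :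
    ∑ i ∈ Finset.range m, (if i ∈ X then u i else 0) =
      ∑ k ∈ Finset.range (Nat.count (· ∈ X) m), u (Nat.nth (· ∈ X) k) := by
  induction m with
  | zero => simp
  | succ m ih =>
    rw [Finset.sum_range_succ, ih, Nat.count_succ]
    split_ifs with h
    · rw [Finset.sum_range_succ, Nat.nth_count h]
    · simp

open Classical in
lemma converges_sub_iff (u : ℕ → ℝ) (X : Set ℕ) (hX : X.Infinite) :
    SeriesConverges (fun k => u (Nat.nth (fun i => i ∈ X) k)) ↔
      SeriesConverges (fun i => if i ∈ X then u i else 0) := by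
  have hinf : (Set.ofPred fun i => i ∈ X).Infinite := hX
  have h1 : ∀ n, ∑ k ∈ Finset.range n, u (Nat.nth (fun i => i ∈ X) k) =
      ∑ i ∈ Finset.range (Nat.nth (fun i => i ∈ X) n), (if i ∈ X then u i else 0) := by
    intro n
    rw [sum_indicator_eq, Nat.count_nth_of_infinite hinf]
  constructor
  · rintro ⟨L, hL⟩
    refine ⟨L, ?_⟩
    simp_rw [sum_indicator_eq]
    refine hL.comp ?_
    refine tendsto_atTop_mono' atTop (f₁ := fun m => Nat.count (fun i => i ∈ X) m)
      (Eventually.of_forall fun _ => le_rfl) ?_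
    refine (Nat.count_monotone _).tendsto_atTop_atTop fun b => ?_
    refine ⟨Nat.nth (fun i => i ∈ X) b, ?_⟩
    rw [Nat.count_nth_of_infinite hinf]
  · rintro ⟨L, hL⟩
    refine ⟨L, ?_⟩
    simp_rw [h1]
    exact hL.comp (Nat.nth_strictMono hinf).tendsto_atTop

/-! ### Block sums -/

section blocks

variable (a : ℕ → ℝ) (p u v : ℕ → ℕ)

/-- The set `⋃ n, [u n, v n)`. -/
def blockSet (u v : ℕ → ℕ) : Set ℕ := {i | ∃ n, u n ≤ i ∧ i < v n}

lemma mem_blockSet_iff (hpu : ∀ n, p n ≤ u n) (hvp : ∀ n, v n < p (n + 1))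
    (hp : StrictMono p) {n i : ℕ} (h1 : p n ≤ i) (h2 : i < p (n + 1)) :
    i ∈ blockSet u v ↔ u n ≤ i ∧ i < v n := by
  constructor
  · rintro ⟨k, hk1, hk2⟩
    have hkn : k = n := by
      rcases lt_trichotomy k n with h | h | h
      · have := hp.monotone (Nat.succ_le_of_lt h)
        have := hvp k
        simp only [Nat.succ_eq_add_one] at *
        omega
      · exact h
      · have := hp.monotone (Nat.succ_le_of_lt h)
        have := hpu k
        simp only [Nat.succ_eq_add_one] at *
        omega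
    subst hkn
    exact ⟨hk1, hk2⟩
  · rintro ⟨h3, h4⟩
    exact ⟨n, h3, h4⟩

/-- Partial sums. -/
noncomputable def psum (m : ℕ) : ℝ := ∑ i ∈ Finset.range m, a i

lemma psum_succ (m : ℕ) : psum a (m + 1) = psum a m + a m := by
  simp [psum, Finset.sum_range_succ]

open Classical in
lemma block_psum (hp0 : p 0 = 0) (hpu : ∀ n, p n ≤ u n) (huv : ∀ n, u n ≤ v n)
    (hvp : ∀ n, v n < p (n + 1)) (hp : StrictMono p) (n : ℕ) :
    ∀ m, p n ≤ m → m ≤ p (n + 1) →
      psum (fun i => if i ∈ blockSet u v then a i else 0) m =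
        (∑ k ∈ Finset.range n, (psum a (v k) - psum a (u k))) +
          (psum a (max (u n) (min m (v n))) - psum a (u n)) := by
  induction n with
  | zero =>
    intro m _ hm
    induction m with
    | zero => simp [psum]
    | succ m ih =>
      rw [psum_succ, ih (by omega) (by omega)]
      have key := mem_blockSet_iff p u v hpu hvp hp (n := 0) (i := m) (by omega) (by omega)
      by_cases hm' : u 0 ≤ m ∧ m < v 0
      · rw [if_pos (key.2 hm')]
        have e1 : max (u 0) (min m (v 0)) = m := by omega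
        have e2 : max (u 0) (min (m + 1) (v 0)) = m + 1 := by omega
        rw [e1, e2, psum_succ]
        ring
      · rw [if_neg (fun h => hm' (key.1 h))]
        have e1 : max (u 0) (min (m + 1) (v 0)) = max (u 0) (min m (v 0)) := by omega
        rw [e1]
        ring
  | succ n ihn =>
    intro m hm1 hm2
    induction m, hm1 using Nat.le_induction with
    | base =>
      have h1 := ihn (p (n + 1)) (hp.monotone (Nat.le_succ n)) le_rfl
      rw [h1, Finset.sum_range_succ]
      have := hpu (n + 1)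
      have := hvp n
      have := huv n
      have e1 : max (u n) (min (p (n + 1)) (v n)) = v n := by omega
      have e2 : max (u (n + 1)) (min (p (n + 1)) (v (n + 1))) = u (n + 1) := by omega
      rw [e1, e2]
      ring
    | succ m hm ih =>
      rw [psum_succ, ih (by omega)]
      have key := mem_blockSet_iff p u v hpu hvp hp (n := n + 1) (i := m) (by omega) (by omega)
      by_cases hm' : u (n + 1) ≤ m ∧ m < v (n + 1)
      · rw [if_pos (key.2 hm')]
        have e1 : max (u (n + 1)) (min m (v (n + 1))) = m := by omega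
        have e2 : max (u (n + 1)) (min (m + 1) (v (n + 1))) = m + 1 := by omega
        rw [e1, e2, psum_succ]
        ring
      · rw [if_neg (fun h => hm' (key.1 h))]
        have e1 : max (u (n + 1)) (min (m + 1) (v (n + 1))) =
          max (u (n + 1)) (min m (v (n + 1))) := by omega
        rw [e1]
        ring

lemma exists_block (hp0 : p 0 = 0) (hp : StrictMono p) (m : ℕ) :
    ∃ n, p n ≤ m ∧ m < p (n + 1) := by
  have hex : ∃ n, m < p (n + 1) := ⟨m, Nat.lt_of_lt_of_le (Nat.lt_succ_self m) hp.le_apply⟩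
  classical
  refine ⟨Nat.find hex, ?_, Nat.find_spec hex⟩
  rcases Nat.eq_zero_or_pos (Nat.find hex) with h | h
  · rw [h, hp0]
    exact Nat.zero_le m
  · have := Nat.find_min hex (m := Nat.find hex - 1) (by omega)
    rw [Nat.sub_add_cancel h] at this
    exact not_lt.1 this

open Classical in
lemma block_converges (hp0 : p 0 = 0) (hpu : ∀ n, p n ≤ u n) (huv : ∀ n, u n ≤ v n)
    (hvp : ∀ n, v n < p (n + 1)) (hp : StrictMono p) (ha : SeriesConverges a)
    (hD : Summable fun k => psum a (v k) - psum a (u k)) :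
    SeriesConverges (fun i => if i ∈ blockSet u v then a i else 0) := by
  obtain ⟨L, hL⟩ := ha
  obtain ⟨R, hR⟩ := hD
  have hR' := hR.tendsto_sum_nat
  refine ⟨R, ?_⟩
  rw [Metric.tendsto_atTop] at hL hR' ⊢
  intro ε hε
  obtain ⟨N1, hN1⟩ := hL (ε / 3) (by positivity)
  obtain ⟨N2, hN2⟩ := hR' (ε / 3) (by positivity)
  refine ⟨p (max N1 N2), fun m hm => ?_⟩
  obtain ⟨n, hn1, hn2⟩ := exists_block p hp0 hp m
  have hn : max N1 N2 ≤ n := by
    by_contra hcon
    have := hp.monotone (show n + 1 ≤ max N1 N2 by omega)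
    omega
  have h1 := block_psum a p u v hp0 hpu huv hvp hp n m hn1 hn2.le
  change dist (psum (fun i => if i ∈ blockSet u v then a i else 0) m) R < ε
  rw [h1]
  have hb1 : N1 ≤ u n := by
    have := hp.le_apply (x := n)
    have := hpu n
    have := le_max_left N1 N2
    omega
  have h2 := hN1 (u n) hb1
  have h3 := hN1 (max (u n) (min m (v n))) (hb1.trans (le_max_left _ _))
  have h4 := hN2 n ((le_max_right _ _).trans hn)
  change dist (psum a (u n)) L < ε / 3 at h2
  change dist (psum a (max (u n) (min m (v n)))) L < ε / 3 at h3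
  rw [Real.dist_eq, abs_lt] at *
  constructor <;> linarith [h2.1, h2.2, h3.1, h3.2, h4.1, h4.2]

end blocks

end Pool.Agent.Lib.MP_d37bef_lc
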