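import Mathlib
import Pool.Agent.Lib.MP_d37bef_lc.Basic

open Cardinal Filter Topology

namespace Pool.Agent.Lib.MP_d37bef_lc

/-- `Φ` is a family of `g`-slaloms which localize every function below `b`. -/
def IsLocFamily (b g : ℕ → ℕ) (Φ : Set (ℕ → Finset ℕ)) : Prop :=
  (∀ φ ∈ Φ, ∀ n, (φ n).card ≤ g n) ∧
  ∀ x : ℕ → ℕ, (∀ n, x n < b n) → ∃ φ ∈ Φ, ∀ᶠ n in atTop, x n ∈ φ n

/-- The localization number `𝔠^∀_{b,g}`: the least number of `g`-slaloms which localize every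
function in `∏ b`. -/
noncomputable def locNumber (b g : ℕ → ℕ) : Cardinal.{0} :=
  sInf {κ | ∃ Φ : Set (ℕ → Finset ℕ), #Φ = κ ∧ IsLocFamily b g Φ}

/-! ### Coding -/

lemma pigeon (M L G : ℕ) (hM : 0 < M) (hL : M ^ G < L) (F : Finset ℕ) (hF : F.card ≤ G) :
    ∃ i i', i < i' ∧ i' < L ∧ ∀ y ∈ F, y / M ^ i % M = y / M ^ i' % M := by
  let f : Fin L → (F → Fin M) := fun i y => ⟨y.1 / M ^ i.1 % M, Nat.mod_lt _ hM⟩
  have hc : Fintype.card (F → Fin M) < Fintype.card (Fin L) := by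
    rw [Fintype.card_fun, Fintype.card_fin, Fintype.card_fin, Fintype.card_coe]
    exact (Nat.pow_le_pow_right hM hF).trans_lt hL
  obtain ⟨i, i', hne, heq⟩ := Fintype.exists_ne_map_eq_of_card_lt f hc
  have h1 : ∀ y ∈ F, y / M ^ i.1 % M = y / M ^ i'.1 % M := fun y hy =>
    congrArg Fin.val (congrFun heq ⟨y, hy⟩)
  rcases lt_or_gt_of_ne (fun h => hne (Fin.ext h) : i.1 ≠ i'.1) with h | h
  · exact ⟨i.1, i'.1, h, i'.2, h1⟩
  · exact ⟨i'.1, i.1, h, i.2, fun y hy => (h1 y hy).symm⟩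

lemma exists_code (M L : ℕ) (c : ℕ → ℕ) (hc : ∀ i, c i < M) :
    ∃ y < M ^ L, ∀ i < L, y / M ^ i % M = c i := by
  let f : Fin L → Fin M := fun i => ⟨c i.1, hc i.1⟩
  refine ⟨(finFunctionFinEquiv f).1, (finFunctionFinEquiv f).2, fun i hi => ?_⟩
  have h := congrArg Fin.val (congrFun (finFunctionFinEquiv.symm_apply_apply f) ⟨i, hi⟩)
  exact h

/-- The number of codes for values in `[-n, n]` with precision `2 ^ (-n)`. -/
def cN (n : ℕ) : ℕ := 2 * (n * 2 ^ n) + 1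

/-- The code of a real number with precision `2 ^ (-n)`. -/
noncomputable def quant (n : ℕ) (r : ℝ) : ℕ :=
  min (2 * (n * 2 ^ n)) (⌊2 ^ n * r⌋ + (n * 2 ^ n : ℕ)).toNat

lemma quant_lt (n : ℕ) (r : ℝ) : quant n r < cN n :=
  Nat.lt_succ_of_le (min_le_left _ _)

lemma quant_eq_cast {n : ℕ} {r : ℝ} (hr : |r| ≤ n) :
    (quant n r : ℤ) = ⌊2 ^ n * r⌋ + (n * 2 ^ n : ℕ) := by
  have h2 : (0 : ℝ) < 2 ^ n := by positivity
  rw [abs_le] at hr
  have h3 : -((n * 2 ^ n : ℕ) : ℤ) ≤ ⌊2 ^ n * r⌋ := by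
    rw [Int.le_floor]
    push_cast
    nlinarith [hr.1]
  have h4 : ⌊2 ^ n * r⌋ ≤ ((n * 2 ^ n : ℕ) : ℤ) := by
    have : (⌊2 ^ n * r⌋ : ℝ) ≤ ((n * 2 ^ n : ℕ) : ℝ) := by
      refine (Int.floor_le _).trans ?_
      push_cast
      nlinarith [hr.2]
    exact_mod_cast this
  unfold quant
  rw [Nat.cast_min, Int.toNat_of_nonneg (by linarith)]
  apply min_eq_right
  push_cast at *
  linarith

lemma quant_close {n : ℕ} {r r' : ℝ} (hr : |r| ≤ n) (hr' : |r'| ≤ n)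
    (h : quant n r = quant n r') : |r - r'| ≤ (1 / 2) ^ n := by
  have h2 : (0 : ℝ) < 2 ^ n := by positivity
  have h1 : ⌊2 ^ n * r⌋ = ⌊2 ^ n * r'⌋ := by
    have := quant_eq_cast hr
    have h3 := quant_eq_cast hr'
    rw [h] at this
    linarith
  have h3 : |2 ^ n * r - 2 ^ n * r'| < 1 := Int.abs_sub_lt_one_of_floor_eq_floor h1
  rw [← mul_sub, abs_mul, abs_of_pos h2] at h3
  rw [one_div, inv_pow, ← one_div, le_div_iff₀ h2]
  linarith

section main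

variable (g : ℕ → ℕ)

/-- Lengths of the blocks. -/
def bL (n : ℕ) : ℕ := cN n ^ g n + 1

/-- Starting points of the blocks. -/
def bp (n : ℕ) : ℕ := ∑ k ∈ Finset.range n, bL g k

/-- The bounding function. -/
def bb (n : ℕ) : ℕ := max (cN n ^ bL g n) (n * g n + 1)

lemma bp_succ (n : ℕ) : bp g (n + 1) = bp g n + bL g n := by
  simp [bp, Finset.sum_range_succ]

lemma bp_strictMono : StrictMono (bp g) := by
  refine strictMono_nat_of_lt_succ fun n => ?_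
  rw [bp_succ]
  unfold bL
  omega

lemma infinite_of_isLocFamily {b : ℕ → ℕ} (hb : ∀ n, bb g n ≤ b n)
    {Φ : Set (ℕ → Finset ℕ)} (hΦ : IsLocFamily b g Φ) : Φ.Infinite := by
  intro hfin
  classical
  let U : ℕ → Finset ℕ := fun n => hfin.toFinset.biUnion fun φ => φ n
  have hU : ∀ n, (U n).card ≤ hfin.toFinset.card * g n := fun n =>
    Finset.card_biUnion_le_card_mul _ _ _ fun φ hφ => hΦ.1 φ (hfin.mem_toFinset.1 hφ) n
  have hex : ∀ n, ∃ x < b n, hfin.toFinset.card ≤ n → x ∉ U n := by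
    intro n
    by_contra hcon
    push Not at hcon
    have hsub : Finset.range (b n) ⊆ U n := fun x hx => (hcon x (Finset.mem_range.1 hx)).2
    have hpos : 0 < b n := by
      have := hb n
      have := le_max_right (cN n ^ bL g n) (n * g n + 1)
      unfold bb at *
      omega
    have h1 := Finset.card_le_card hsub
    rw [Finset.card_range] at h1
    have h2 := hU n
    have h3 := (hcon 0 hpos).1
    have h4 : hfin.toFinset.card * g n ≤ n * g n := Nat.mul_le_mul_right _ h3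
    have h5 := hb n
    have h6 := le_max_right (cN n ^ bL g n) (n * g n + 1)
    unfold bb at *
    omega
  choose x hx1 hx2 using hex
  obtain ⟨φ, hφ, hev⟩ := hΦ.2 x hx1
  obtain ⟨N, hN⟩ := eventually_atTop.1 hev
  refine hx2 (max N hfin.toFinset.card) (le_max_right _ _) ?_
  exact Finset.mem_biUnion.2 ⟨φ, hfin.mem_toFinset.2 hφ, hN _ (le_max_left _ _)⟩

open Classical in
lemma cc_of_small_blocks (a : ℕ → ℚ) (ha : CondConverges fun i => (a i : ℝ)) (p u v : ℕ → ℕ)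
    (hp0 : p 0 = 0) (hpu : ∀ n, p n ≤ u n) (huv : ∀ n, u n < v n)
    (hvp : ∀ n, v n < p (n + 1)) (hp : StrictMono p)
    (hD : Summable fun k => psum (fun i => (a i : ℝ)) (v k) - psum (fun i => (a i : ℝ)) (u k))
    (hX : (blockSet u v).Infinite) (hXc : (blockSet u v)ᶜ.Infinite) :
    CondConverges (subterms a (blockSet u v)) ∨ CondConverges (subterms a (blockSet u v)ᶜ) := by
  set X := blockSet u v with hXdef
  obtain ⟨⟨L, hL⟩, hdiv⟩ := ha
  have h1 : SeriesConverges (fun i => if i ∈ X then (a i : ℝ) else 0) :=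
    block_converges _ p u v hp0 hpu (fun n => (huv n).le) hvp hp ⟨L, hL⟩ hD
  have h2 : SeriesConverges
      (fun i => @ite ℝ (i ∈ Xᶜ) (Classical.propDecidable _) (a i : ℝ) 0) := by
    obtain ⟨R, hR⟩ := h1
    refine ⟨L - R, (hL.sub hR).congr fun n => ?_⟩
    rw [← Finset.sum_sub_distrib]
    refine Finset.sum_congr rfl fun i _ => ?_
    by_cases hi : i ∈ X
    · simp [hi]
    · simp [hi]
  by_contra hcon
  push Not at hcon
  have key : ∀ Y : Set ℕ, Y.Infinite →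
      SeriesConverges (fun i => if i ∈ Y then (a i : ℝ) else 0) →
      ¬ CondConverges (subterms a Y) →
      SeriesConverges (fun i => if i ∈ Y then |(a i : ℝ)| else 0) := by
    intro Y hY hc hn
    by_contra h3
    apply hn
    refine ⟨(converges_sub_iff (fun i => (a i : ℝ)) Y hY).2 hc, fun h4 => h3 ?_⟩
    exact (converges_sub_iff (fun i => |(a i : ℝ)|) Y hY).1 h4
  obtain ⟨R1, hR1⟩ := key X hX h1 hcon.1
  obtain ⟨R2, hR2⟩ := key Xᶜ hXc h2 hcon.2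
  apply hdiv
  refine ⟨R1 + R2, (hR1.add hR2).congr fun n => ?_⟩
  rw [← Finset.sum_add_distrib]
  refine Finset.sum_congr rfl fun i _ => ?_
  by_cases hi : i ∈ X
  · simp [hi]
  · simp [hi]

lemma exists_isCCFamily {b : ℕ → ℕ} (hb : ∀ n, bb g n ≤ b n)
    {Φ : Set (ℕ → Finset ℕ)} (hΦ : IsLocFamily b g Φ) :
    ∃ 𝒳 : Set (Set ℕ), #𝒳 ≤ #Φ ∧ IsCCFamily 𝒳 := by
  have hchoice : ∀ φ : Φ, ∀ n, ∃ i i', i < i' ∧ i' < bL g n ∧
      ∀ y ∈ φ.1 n, y / cN n ^ i % cN n = y / cN n ^ i' % cN n := fun φ n =>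
    pigeon (cN n) (bL g n) (g n) (Nat.succ_pos _) (Nat.lt_succ_self _) (φ.1 n) (hΦ.1 φ.1 φ.2 n)
  choose i i' hii hi' hdec using hchoice
  let u : Φ → ℕ → ℕ := fun φ n => bp g n + i φ n
  let v : Φ → ℕ → ℕ := fun φ n => bp g n + i' φ n
  have hpu : ∀ φ n, bp g n ≤ u φ n := fun φ n => Nat.le_add_right _ _
  have huv : ∀ φ n, u φ n < v φ n := fun φ n => Nat.add_lt_add_left (hii φ n) _
  have hvp : ∀ φ n, v φ n < bp g (n + 1) := fun φ n => by
    rw [bp_succ]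
    exact Nat.add_lt_add_left (hi' φ n) _
  have humono : ∀ φ, StrictMono (u φ) := fun φ => strictMono_nat_of_lt_succ fun n =>
    (huv φ n).trans ((hvp φ n).trans_le (hpu φ (n + 1)))
  have hvmono : ∀ φ, StrictMono (v φ) := fun φ => strictMono_nat_of_lt_succ fun n =>
    (hvp φ n).trans_le ((hpu φ (n + 1)).trans (huv φ (n + 1)).le)
  have hinf1 : ∀ φ, (blockSet (u φ) (v φ)).Infinite := fun φ =>
    (Set.infinite_range_of_injective (humono φ).injective).mono (by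
      rintro _ ⟨n, rfl⟩
      exact ⟨n, le_rfl, huv φ n⟩)
  have hinf2 : ∀ φ, (blockSet (u φ) (v φ))ᶜ.Infinite := fun φ =>
    (Set.infinite_range_of_injective (hvmono φ).injective).mono (by
      rintro _ ⟨n, rfl⟩ hmem
      have := (mem_blockSet_iff (bp g) (u φ) (v φ) (hpu φ) (hvp φ) (bp_strictMono g)
        (n := n) (i := v φ n) ((hpu φ n).trans (huv φ n).le) (hvp φ n)).1 hmem
      exact lt_irrefl _ this.2)
  have hΦinf := infinite_of_isLocFamily g hb hΦ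
  refine ⟨Set.range (fun φ : Φ => blockSet (u φ) (v φ)) ∪
    Set.range (fun φ : Φ => (blockSet (u φ) (v φ))ᶜ), ?_, ?_, ?_⟩
  · refine (Cardinal.mk_union_le _ _).trans ?_
    have : ℵ₀ ≤ #Φ := by
      rw [← Cardinal.infinite_iff]
      exact hΦinf.to_subtype
    calc _ ≤ #Φ + #Φ := add_le_add Cardinal.mk_range_le Cardinal.mk_range_le
      _ = #Φ := Cardinal.add_eq_self this
  · rintro X (⟨φ, rfl⟩ | ⟨φ, rfl⟩)
    · exact ⟨hinf1 φ, hinf2 φ⟩
    · refine ⟨hinf2 φ, ?_⟩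
      rw [compl_compl]
      exact hinf1 φ
  · intro a ha
    set s := psum (fun i => (a i : ℝ)) with hs
    obtain ⟨L, hL⟩ := ha.1
    have hcode : ∀ n, ∃ y < cN n ^ bL g n, ∀ j < bL g n,
        y / cN n ^ j % cN n = quant n (s (bp g n + j)) := fun n =>
      exists_code (cN n) (bL g n) (fun j => quant n (s (bp g n + j))) fun j => quant_lt _ _
    choose x hx1 hx2 using hcode
    obtain ⟨φ, hφ, hev⟩ := hΦ.2 x fun n =>
      (hx1 n).trans_le ((le_max_left _ _).trans (hb n))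
    have hbdd : ∃ C : ℕ, ∀ n, |s n| ≤ C := by
      obtain ⟨C, hC⟩ := hL.norm.bddAbove_range
      obtain ⟨C', hC'⟩ := exists_nat_ge C
      exact ⟨C', fun n => (hC ⟨n, rfl⟩).trans hC'⟩
    obtain ⟨C, hC⟩ := hbdd
    have hD : Summable fun k => s (v ⟨φ, hφ⟩ k) - s (u ⟨φ, hφ⟩ k) := by
      have hgeo : Summable fun k : ℕ => ((1 : ℝ) / 2) ^ k :=
        summable_geometric_of_lt_one (by norm_num) (by norm_num)
      refine hgeo.of_norm_bounded_eventually_nat ?_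
      filter_upwards [hev, eventually_ge_atTop C] with n hn hCn
      rw [Real.norm_eq_abs]
      have hCn' : (C : ℝ) ≤ n := by exact_mod_cast hCn
      refine quant_close ((hC _).trans hCn') ((hC _).trans hCn') ?_
      have h1 := hx2 n (i ⟨φ, hφ⟩ n) ((hii ⟨φ, hφ⟩ n).trans (hi' ⟨φ, hφ⟩ n))
      have h2 := hx2 n (i' ⟨φ, hφ⟩ n) (hi' ⟨φ, hφ⟩ n)
      have h3 := hdec ⟨φ, hφ⟩ n (x n) hn
      rw [h1, h2] at h3
      exact h3.symm
    rcases cc_of_small_blocks a ha (bp g) (u ⟨φ, hφ⟩) (v ⟨φ, hφ⟩) rfl (hpu _) (huv _) (hvp _)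
      (bp_strictMono g) hD (hinf1 _) (hinf2 _) with h | h
    · exact ⟨_, Or.inl ⟨⟨φ, hφ⟩, rfl⟩, h⟩
    · exact ⟨_, Or.inr ⟨⟨φ, hφ⟩, rfl⟩, h⟩

end main

lemma exists_ccFamily : ∃ 𝒳 : Set (Set ℕ), IsCCFamily 𝒳 := by
  obtain ⟨𝒳, _, h2⟩ := exists_isCCFamily (fun _ => 1) (b := bb fun _ => 1) (fun _ => le_rfl)
    (Φ := {φ | ∀ n, (φ n).card ≤ 1}) ⟨fun φ hφ => hφ, fun x _ =>
      ⟨fun n => {x n}, fun n => by simp, Eventually.of_forall fun n => by simp⟩⟩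
  exact ⟨𝒳, h2⟩

lemma IsCCFamily.isCFamily {𝒳 : Set (Set ℕ)} (h : IsCCFamily 𝒳) : IsCFamily 𝒳 :=
  ⟨h.1, fun a ha => by
    obtain ⟨X, hX, hc⟩ := h.2 a ha
    exact ⟨X, hX, hc.1⟩⟩

lemma ssCC_spec : ∃ 𝒳 : Set (Set ℕ), #𝒳 = ssCC ∧ IsCCFamily 𝒳 := by
  obtain ⟨𝒳, h⟩ := exists_ccFamily
  exact csInf_mem (s := {κ | ∃ 𝒳 : Set (Set ℕ), #𝒳 = κ ∧ IsCCFamily 𝒳}) ⟨_, 𝒳, rfl, h⟩

lemma ssC_spec : ∃ 𝒳 : Set (Set ℕ), #𝒳 = ssC ∧ IsCFamily 𝒳 := by
  obtain ⟨𝒳, h⟩ := exists_ccFamily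
  exact csInf_mem (s := {κ | ∃ 𝒳 : Set (Set ℕ), #𝒳 = κ ∧ IsCFamily 𝒳})
    ⟨_, 𝒳, rfl, h.isCFamily⟩

lemma ssC_le_ssCC : ssC ≤ ssCC := by
  obtain ⟨𝒳, h1, h2⟩ := ssCC_spec
  rw [← h1]
  exact csInf_le' ⟨𝒳, rfl, h2.isCFamily⟩

end Pool.Agent.Lib.MP_d37bef_lc
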